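import Mathlib
import Pool.Agent.H.MP_47443c_co.A

set_option autoImplicit false

open Finset Pool.Agent.HomBent

namespace Pool.Agent.Results.MP_47443c_co.Pow

theorem flip2 {κ : Type} [DecidableEq κ] (t : ℕ) (T : Finset κ) (h : T.card + 2 = 2 * 2 ^ t)
    (z : κ → ZMod 2) (c : ZMod 2) :
    c + sg (2 ^ t) T z = sg (2 ^ t) (insertNone T) fun o => o.elim c fun p => z p + c := by
  have := sg_flip t (insertNone T) (by rw [card_insertNone, h]) (fun o => o.elim 0 z) c
  have e : sg (2 ^ t) (insertNone T) (fun o => o.elim 0 z) = sg (2 ^ t) T z := by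
    rw [sg_eq, sg_eq, ← card_map ⟨some, Option.some_injective κ⟩ (s := T.filter _)]
    congr 3
    ext (_ | p) <;> simp
  rw [add_comm, ← e, ← this]
  congr 1
  ext (_ | p) <;> simp

theorem core {κ : Type} [Fintype κ] [DecidableEq κ] (t : ℕ) (B : κ → Finset κ)
    (h0 : ∀ j, (B j).card + 2 = 2 * 2 ^ t) (h1 : ∀ j, j ∉ B j)
    (h2 : ∀ i j, ∀ p ∈ B i, ∀ q ∈ B i, p ∈ B j → q ∈ B j → p = q ∨ i = j)
    (h3 : ∀ i j, j ∈ B i → Disjoint (B i) (B j)) :
    ∃ f ∈ H (univ : Finset (κ ⊕ κ)) (2 ^ t + 1), Bent f := by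
  refine ⟨_, ?_, mm (fun p j => if p ∈ B j then 1 else 0) 1
    fun z => ∑ j, sg (2 ^ t) (B j) z * z j⟩
  let D : κ → κ → Finset (κ ⊕ κ) := fun j p =>
    (univ.filter fun i => p ∈ B i ∧ i ≠ j).disjSum {p}
  let E : κ → Option κ → Finset (κ ⊕ κ) := fun j o => o.elim {.inl j} (D j)
  have key : ∀ j, (fun v : κ ⊕ κ → ZMod 2 => sg (2 ^ t) (insertNone (B j)) fun o => ∑ i ∈ E j o, v i) *
      (fun v => ∑ i ∈ D j j, v i) ∈ H univ (2 ^ t + 1) := by
    intro j
    have := H.mul (H.sg (E j) (fun o v => ∑ i ∈ E j o, v i) 1 (2 ^ t) (insertNone (B j)) ?_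
      fun o _ => H.lin _) (H.lin (D j j)) ?_
    · rw [mul_one] at this
      exact H.mono (subset_univ _) _ this
    · rintro (_ | p) hp (_ | q) hq e
      · simp at e
      · simp [E, D, Function.onFun]
      · simp [E, D, Function.onFun]
      · simp only [mem_coe, some_mem_insertNone, ne_eq, Option.some.injEq] at hp hq e
        simp only [E, D, Function.onFun, Option.elim, disjoint_left]
        rintro (i | i) <;> simp
        · exact fun a b c => ((h2 i j p a q c hp hq).elim e b).elim
        · rintro rfl; exact e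
    · rw [disjoint_biUnion_left]
      rintro (_ | p) hp
      · simp [E, D]
      · simp only [some_mem_insertNone] at hp
        simp only [E, D, Option.elim, disjoint_left]
        rintro (i | i) <;> simp
        · exact fun a b c => (disjoint_left.1 (h3 i j c) a hp).elim
        · rintro rfl rfl; exact h1 _ hp
  convert Submodule.sum_mem _ fun j (_ : j ∈ univ) => key j using 1
  ext v
  simp only [Equiv.Perm.coe_one, id, Finset.sum_apply, Pi.mul_apply, ← sum_add_distrib, ← add_mul]
  refine sum_congr rfl fun j _ => ?_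
  have e : ∀ p, ∑ i ∈ D j p, v i = v (.inr p) + ∑ i, (if p ∈ B i then 1 else 0) * v (.inl i) +
      if p ∈ B j then v (.inl j) else 0 := by
    intro p
    rw [← add_sum_erase _ _ (mem_univ j)]
    simp only [D, sum_disjSum, sum_singleton, ite_mul, one_mul, zero_mul, ← sum_filter, filter_and,
      filter_ne', inter_erase, inter_univ, filter_erase]
    split_ifs
    · linear_combination (-v (.inl j)) * (CharTwo.two_eq_zero (R := ZMod 2))
    · ring
  rw [e j, if_neg (h1 j), add_zero, flip2 t _ (h0 j), sg_eq, sg_eq]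
  congr 4
  refine filter_congr ?_
  rintro (_ | p) hp
  · simp [E]
  · simp only [E, Option.elim, e p, if_pos (some_mem_insertNone.1 hp)]

theorem p3 {a b c : ℕ} (h : a ≤ b) (g : b < c) : 3 ^ a + 3 ^ b < 3 ^ c := by
  have := Nat.pow_le_pow_right (show 0 < 3 by omega) h
  have := Nat.pow_le_pow_right (show 0 < 3 by omega) (Nat.succ_le_of_lt g)
  have : 0 < 3 ^ b := by positivity
  omega

theorem free (a b c : ℕ) : 3 ^ a + 3 ^ b ≠ 3 ^ c := by
  wlog h : a ≤ b generalizing a b
  · rw [add_comm]; exact this b a (by omega)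
  rcases lt_or_ge b c with g | g
  · exact (p3 h g).ne
  · have := Nat.pow_le_pow_right (show 0 < 3 by omega) g
    have : 0 < 3 ^ a := by positivity
    omega

theorem sidon (a b c d : ℕ) (e : 3 ^ a + 3 ^ b = 3 ^ c + 3 ^ d) : a = c ∨ a = d := by
  have i : ∀ {x y : ℕ}, 3 ^ x = 3 ^ y → x = y := fun h => Nat.pow_right_injective (by omega) h
  have k : ∀ {a b c d : ℕ}, a ≤ b → c ≤ d → 3 ^ a + 3 ^ b = 3 ^ c + 3 ^ d → a = c ∧ b = d := by
    intro a b c d h g e
    have : 0 < 3 ^ a := by positivity
    have : 0 < 3 ^ c := by positivity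
    rcases lt_trichotomy b d with l | rfl | l
    · have := p3 h l; omega
    · exact ⟨i (by omega), rfl⟩
    · have := p3 g l; omega
  rcases le_total a b with h | h <;> rcases le_total c d with g | g
  · exact .inl (k h g e).1
  · exact .inr (k h g (by omega)).1
  · exact .inr (k h g (by omega)).2
  · exact .inl (k h g (by omega)).2

theorem result (t : ℕ) : ∃ N : ℕ, 2 ≤ N ∧ ∀ n : ℕ, N < n → Even n →
    ∃ S : Finset (Finset (Fin n)), (∀ s ∈ S, s.card = 2 ^ t + 1) ∧ ∀ a : Fin n → ZMod 2,
      (∑ x : Fin n → ZMod 2,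
        (-1 : ℤ) ^ (ZMod.val ((∑ s ∈ S, ∏ i ∈ s, x i) + ∑ i : Fin n, a i * x i))) ^ 2 = 2 ^ n := by
  refine ⟨4 * 3 ^ (2 * 2 ^ t) + 2, by omega, fun n hn ⟨m, hm⟩ => ?_⟩
  have : NeZero m := ⟨by omega⟩
  have l : ∀ a ∈ range (2 * 2 ^ t - 2), 2 * 3 ^ a < m := fun a ha => by
    have := Nat.pow_le_pow_right (show 0 < 3 by omega)
      (show a ≤ 2 * 2 ^ t by have := mem_range.1 ha; omega)
    omega
  have c : ∀ x y : ℕ, x < m → y < m → (x : ZMod m) = y → x = y := fun x y hx hy e => by
    rwa [ZMod.natCast_eq_natCast_iff', Nat.mod_eq_of_lt hx, Nat.mod_eq_of_lt hy] at e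
  refine (core t
    (fun j : ZMod m => (range (2 * 2 ^ t - 2)).image fun a => j + (3 ^ a : ℕ)) (fun j => ?_)
    (fun j => ?_) ?_ fun i j => ?_).elim fun f ⟨f1, f2⟩ => transfer (by simp [hm]) f1 f2
  · have : 0 < 2 ^ t := by positivity
    rw [card_image_of_injOn, card_range]
    · omega
    · intro a ha b hb e
      have := l a ha
      have := l b hb
      exact Nat.pow_right_injective (show 2 ≤ 3 by omega)
        (c (3 ^ a) (3 ^ b) (by omega) (by omega) (add_left_cancel e))
  · simp only [mem_image, not_exists, not_and]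
    intro a ha e
    have := l a ha
    have := c (3 ^ a) 0 (by omega) (by omega) (by simpa using e)
    simp at this
  · simp only [mem_image, forall_exists_index, and_imp]
    rintro i j _ a ha rfl _ b hb rfl x hx e y hy g
    have := l a ha; have := l b hb; have := l x hx; have := l y hy
    rcases sidon a y b x (c _ _ (by omega) (by omega) (by push_cast at *; linear_combination g - e))
      with rfl | rfl
    · exact .inl rfl
    · exact .inr (add_right_cancel e).symm
  · simp only [mem_image, forall_exists_index, and_imp, disjoint_left, not_exists, not_and]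
    rintro a ha rfl _ b hb rfl x hx e
    have := l a ha; have := l b hb; have := l x hx
    exact free a x b (c _ _ (by omega) (by omega) (by push_cast at *; linear_combination e))

end Pool.Agent.Results.MP_47443c_co.Pow
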